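import Mathlib
import Pool.Agent.Work.MP_45cf3b_lc.Defs
import Pool.Agent.Work.MP_45cf3b_lc.Basic

open Cardinal Order Set

universe u

namespace Pool.Agent.Results.MP_45cf3b_lc.GalvinZFC

open Pool.Agent.Work.MP_45cf3b_lc

/-- **Main result** (in ZFC).  For every regular uncountable cardinal `κ` there is a proper
`κ`-complete filter `F` on `κ` that contains every club subset of `κ` and fails to have the Galvin
property: some `κ⁺`-sequence of members of `F` has no subfamily of size `κ` whose intersection
belongs to `F`. -/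
theorem result (κ : Cardinal.{u}) (hκ : κ.IsRegular) (hκ' : ℵ₀ < κ) :
    ∃ F : Filter κ.ord.ToType, F.NeBot ∧ CardinalInterFilter F κ ∧
      (∀ C : Set κ.ord.ToType, IsClub C → C ∈ F) ∧ ¬ GalvinProperty κ F :=
  main κ hκ hκ'

end Pool.Agent.Results.MP_45cf3b_lc.GalvinZFC
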